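import Pool.Agent.U207.QK.Wk

/-!
# Lang's conjecture on rational points is a question on intersections of quadrics

For quadratic forms `P_i`, `i < c`, in `N + 1` variables over a field `K` consider the covering of `P^N`
with group `(ℤ/2)^c`

`Y : x_i^2 = P_i(h_0, …, h_N), i < c`, in `P^{N+c}`,

when it is a smooth complete intersection of `c` quadrics. Let `E N` be infinite sets of numbers.

Q1, that is, `X(K)` is not Zariski dense in `X` for all projective varieties `X` of general type and of
positive dimension over `K` (with any singularities; by resolution of singularities the same as for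
all varieties, or for all smooth projective ones) is equivalent to: for all these smooth `Y` over `K` with
`c ∈ E N` no irreducible component of positive dimension of the Zariski closure of `Y(K)` is of general
type. Here `K` is any field of characteristic zero, for instance the field of rational numbers, and `k`
an algebraically closed extension of `K`, for instance the algebraic closure; `X` is a geometrically
irreducible closed subset of a projective space (otherwise `X(K)` is not dense in `X` anyway).

Proof. Let `X` in `P^n` be given by forms of degree at most `d`, `d ≥ 3`, over `K`, and let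
`v : P^n → P^N` be the Veronese embedding of degree `d`. For all `c ≥ (2 (N + 1)^3 + 6 N + 5)^2` there are
quadratic forms `P_i` and linear forms `ℓ_i` over `K` such that `Y` is smooth, `P_i = ℓ_i^2` on `v(X)`,
so that `Y` contains the `2^c` copies `x_i = ± ℓ_i(h)`, `h ∈ v(X)`, of `X` over `K`, and all closed
subvarieties of `Y` of positive dimension which do not lie over `v(X)` are of general type
(`Cv.special` in `Pool/Agent/U207/QK/Gd.lean`). The construction: `v(X)` is given by quadratic forms
`b_l` over `K` whose Jacobian matrix has rank `≥ N - n > n` at all points of `v(X)`. Let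
`Z_t = ∑ C_{tl} b_l` and `P_i = (∑_j a_i^j h_j)^2 + ∑_t a_i^{B + k t} Z_t(h)` with integers `C_{tl}`, `a_i`
outside of a hypersurface. `P_i(h)` is the value at the node `a_i` of a polynomial in one variable with
coefficients depending on `h`; for a point of `Y` in a function field the method of Büchi's problem
(Vojta, Pasten), with pluricanonical forms, and an argument with derivations show that the
field is of general type, or all ratios of the `h_j` are constants, or all `Z_t(h)` are zero. If `X` is
of general type and `X(K)` is dense in `X`, then the closure of `Y(K)` contains the copies of `X`, and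
they are components of it, since a larger component would be of general type.
-/

set_option autoImplicit false

namespace Pool.Agent.Results.MP_2ae8fe_ag.QuadricCoversSuffice

open MvPolynomial
open Pool.Agent.W602.GT (SubVar GeneralType)
open Pool.Agent.U207.QK (coverForm SmoothCover Eqs Component)

section defs

variable {K k : Type} [Field K] [Field k] [Algebra K k] {n : ℕ} {ι : Type}

/-- the form `G` over `k` vanishes at all `K`-rational points of the closed set `F = 0`, that is, on
the Zariski closure of the set of these points -/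
def OnPoints (F : ι → MvPolynomial (Fin (n + 1)) K) (G : MvPolynomial (Fin (n + 1)) k) : Prop :=
  ∀ x : Fin (n + 1) → K, x ≠ 0 → (∀ i, aeval x (F i) = 0) →
    aeval (fun j => algebraMap K k (x j)) G = 0

/-- the closed subset `F = 0` of `P^n` over `K` is geometrically irreducible, with the function field
`L` over `k`, the generic point `y` and the dimension `w` -/
structure Generic (F : ι → MvPolynomial (Fin (n + 1)) K) (L : Type) [Field L] [Algebra k L]
    (w : ℕ) (y : Fin (n + 1) → L) : Prop where
  sub : SubVar (fun i => map (algebraMap K k) (F i)) L w y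
  all : ∀ (Ω : Type) [Field Ω] [Algebra k Ω] (x : Fin (n + 1) → Ω),
    (∀ i, aeval x (map (algebraMap K k) (F i)) = 0) → ∀ p ∈ Eqs (k := k) y, aeval x p = 0

variable (K k)

/-- Q1 over `K` for all (geometrically irreducible) projective varieties `X = {F = 0}` of positive
dimension: if `X` is of general type, then `X(K)` is contained in a closed subset `X ∩ {G = 0}` which is
not `X`. -/
def LangWeak : Prop :=
  ∀ (n : ℕ) (ι : Type) [Finite ι] (F : ι → MvPolynomial (Fin (n + 1)) K),
    (∀ i, ∃ e, (F i).IsHomogeneous e) →
    ∀ (L : Type) [Field L] [Algebra k L] (w : ℕ) (y : Fin (n + 1) → L), 1 ≤ w →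
      Generic (k := k) F L w y → GeneralType k L w →
      ∃ G : MvPolynomial (Fin (n + 1)) K, (∃ e, G.IsHomogeneous e) ∧
        aeval y (map (algebraMap K k) G) ≠ 0 ∧
        ∀ x : Fin (n + 1) → K, x ≠ 0 → (∀ i, aeval x (F i) = 0) → aeval x G = 0

/-- no irreducible component (over `k`) of positive dimension of the Zariski closure of `Y(K)`,
`Y = {x_i ^ 2 = P_i(h)}`, is of general type -/
def NoGeneralComponent {N c : ℕ} (P : Fin c → MvPolynomial (Fin (N + 1)) K) : Prop :=
  ∀ (L : Type) [Field L] [Algebra k L] (w : ℕ) (y : Fin (N + c + 1) → L), 1 ≤ w →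
    SubVar (fun i => map (algebraMap K k) (coverForm P i)) L w y → GeneralType k L w →
      ¬ Component (OnPoints (k := k) (coverForm P)) y

end defs

section proof

open Pool.Agent.U207.QK
open Pool.Agent.W602.GT (IsForm)

variable {K k : Type} [Field K] [Field k] [Algebra K k]

theorem forw (h : LangWeak K k) {N c : ℕ} (P : Fin c → MvPolynomial (Fin (N + 1)) K) :
    NoGeneralComponent K k P := by
  rintro L _ _ w y hw hy hgt hc
  obtain ⟨T, d, hT, -, hTd, hSame⟩ := exists_same
    {p : MvPolynomial (Fin (N + c + 1)) K | IsForm p ∧ aeval y (map (algebraMap K k) p) = 0}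
    fun p hp => hp.1
  have hgen : Generic (k := k) (fun p : T => (p : MvPolynomial (Fin (N + c + 1)) K)) L w y := by
    refine ⟨⟨hy.ne, fun p => (hT p.2).2, hy.gen, hy.dim⟩, ?_⟩
    intro Ω _ _ x hx p hp
    let _ : Algebra K Ω := ((algebraMap k Ω).comp (algebraMap K k)).toAlgebra
    have _ : IsScalarTower K k Ω := IsScalarTower.of_algebraMap_eq fun _ => rfl
    simp only [aeval_map_algebraMap] at hx
    refine comp_defined hc Ω x ?_ p hp
    intro q hq hqy
    rw [aeval_map_algebraMap]
    exact (hSame Ω x).1 hx q ⟨hq, hqy⟩
  obtain ⟨G, hG, hGy, hGx⟩ := h (N + c) T (fun p : T => (p : MvPolynomial (Fin (N + c + 1)) K))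
    (fun p => (hT p.2).1) L w y hw hgen hgt
  obtain ⟨hc1, H, hH, hHy, hc2⟩ := id hc
  obtain ⟨e, he⟩ := hG
  obtain ⟨e', he'⟩ := hH
  have h1 : OnPoints (k := k) (coverForm P) (map (algebraMap K k) G * H) := by
    intro z hz hzP
    rw [map_mul]
    by_cases h2 : ∀ p : T, aeval z (p : MvPolynomial (Fin (N + c + 1)) K) = 0
    · rw [(zero_iff' G z).2 (hGx z hz h2), zero_mul]
    · push Not at h2
      obtain ⟨p, hp⟩ := h2
      obtain ⟨⟨e1, he1⟩, hpy⟩ := hT p.2
      have h3 := hc2 (map (algebraMap K k) p) ⟨e1, he1.map _⟩ hpy z hz hzP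
      rw [map_mul] at h3
      rcases mul_eq_zero.1 h3 with h4 | h4
      · exact absurd ((zero_iff' _ z).1 h4) hp
      · rw [h4, mul_zero]
  have h2 := hc1 _ ⟨e + e', (he.map _).mul he'⟩ h1
  rw [map_mul] at h2
  exact mul_ne_zero hGy hHy h2

theorem back [IsAlgClosed k] [CharZero K] {E : ℕ → Set ℕ} (hE : ∀ N, (E N).Infinite)
    (h : ∀ (N c : ℕ) (P : Fin c → MvPolynomial (Fin (N + 1)) K), c ∈ E N →
      (∀ i, (P i).IsHomogeneous 2) → SmoothCover P → NoGeneralComponent K k P) :
    LangWeak K k := by
  intro n ι _ F hF L _ _ w y hw hy hgt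
  by_contra hcon
  push Not at hcon
  have hch : CharZero k := charZero_of_injective_algebraMap (algebraMap K k).injective
  have hgen : Gen (𝕜 := k) L w y := ⟨hy.sub.ne, hy.sub.gen, hy.sub.dim⟩
  have hn : 1 ≤ n := by
    rcases Nat.eq_zero_or_pos n with h0 | h0
    · subst h0
      exact (no_pos hw hgen).elim
    · exact h0
  choose e he using hF
  have := Fintype.ofFinite ι
  have hed : ∀ i, ∃ e' ≤ max 3 (Finset.univ.sup e), (F i).IsHomogeneous e' := fun i =>
    ⟨e i, le_trans (Finset.le_sup (f := e) (Finset.mem_univ i)) (le_max_right _ _), he i⟩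
  obtain ⟨N, m, hm, hN⟩ := Pool.Agent.N254.SQ.t_num n (max 3 (Finset.univ.sup e)) hn
    (le_max_left _ _)
  obtain ⟨c, hcE, hc⟩ := (hE N).exists_gt (Pool.Agent.U207.QC.cN N)
  obtain ⟨P, ℓ, hcv⟩ := exists_cvK hn (le_max_left _ _) hm hN hed c hc.le
  have hk := hcv.map k
  refine hk.core (onPoints_idl (coverForm P)) ?_ hw hgen hgt (fun L' _ _ x => ⟨?_, ?_⟩) ?_ ?_
  · intro i x hx hxP
    rw [← map_cover]
    exact (zero_iff' _ x).2 (hxP i)
  · exact hy.all L' x
  · intro hx i
    exact hx _ ⟨⟨e i, (he i).map _⟩, hy.sub.mem i⟩
  · intro G hG hIG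
    have h1 := hcv.downQ (k := k) hIG
    rw [← aeval_onSheet]
    obtain ⟨e', he'⟩ := hG
    obtain ⟨J, _, a, q, ha, hpq, hqh⟩ := decomp (K := K)
      (onSheet m (fun i => map (algebraMap K k) (ℓ i)) G)
    rw [hpq, map_sum]
    refine Finset.sum_eq_zero fun j _ => ?_
    have h2 : aeval y (map (algebraMap K k) (q j)) = 0 := by
      by_contra h3
      obtain ⟨x, hx, hxF, hxq⟩ := hcon (q j)
        ⟨_, hqh _ (onSheet_form hm hk.homL he') j⟩ h3
      have h4 := h1 x hx hxF
      rw [hpq] at h4
      exact hxq (decomp_zero ha h4 j)
    rw [map_mul, h2, mul_zero]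
  · intro L' _ _ w' y' hw' hy' hgt'
    refine h N c P hcE hcv.homP hcv.smooth L' w' y' hw' ⟨hy'.ne, fun i => ?_, hy'.gen, hy'.dim⟩ hgt'
    rw [map_cover]
    exact hy'.mem i

end proof

/-- Lang's conjecture on rational points for all projective varieties over `K` is equivalent to its
version for the coverings `Y` which are smooth complete intersections of quadrics. -/
theorem result (K k : Type) [Field K] [CharZero K] [Field k] [IsAlgClosed k] [Algebra K k]
    (E : ℕ → Set ℕ) (hE : ∀ N, (E N).Infinite) :
    LangWeak K k ↔ ∀ (N c : ℕ) (P : Fin c → MvPolynomial (Fin (N + 1)) K), c ∈ E N →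
      (∀ i, (P i).IsHomogeneous 2) → SmoothCover P → NoGeneralComponent K k P :=
  ⟨fun h _ _ P _ _ _ => forw h P, back hE⟩

end Pool.Agent.Results.MP_2ae8fe_ag.QuadricCoversSuffice
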