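import Mathlib
import Pool.Agent.U580.RG.Main

/-!
# Rational points of random complete intersections of general type

`F_1 = … = F_s = 0` in `ℙ^n` with `deg F_i = d_i` and `κ = ∑ d_i - n - 1 ≥ 1`: if the complete
intersection is smooth, then its canonical bundle is `O(κ)`. For the systems with integer coefficients
of absolute value at most `H`, the probability that there is a rational point of height at most
`H ^ (∑ d_i / (n + 1))` is `≍ H ^ (-s)`, and the probability that there is a rational point whose height
is between `T` and this bound is `≍ T ^ (-κ) H ^ (-s)`, as long as the main term dominates: the degree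
`κ` of the canonical bundle is the exponent of the tail of the height of the rational points.

The bound `O(H ^ (-s))` and the lower bound `c H ^ (-s)` are in the starting library
(`Pool.Agent.R870.RC`, unused by the starting hand-ins); the tail is proved in `Pool.Agent.U580.RG`.
-/

set_option autoImplicit false

namespace Pool.Agent.Results.MP_2ae8fe_ag.RandomGeneralType

open MvPolynomial

/-- the systems of `s` forms of degrees `d_1, …, d_s` in `n + 1` variables with integer coefficients
of absolute value at most `H` -/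
def Systems (n : ℕ) {s : ℕ} (d : Fin s → ℕ) (H : ℕ) :
    Set (Fin s → MvPolynomial (Fin (n + 1)) ℤ) :=
  {F | ∀ i, (F i).IsHomogeneous (d i) ∧ ∀ m, |(F i).coeff m| ≤ (H : ℤ)}

/-- the coordinates of `x` are coprime: `x` represents a rational point of `ℙ^n`, and each rational
point has exactly two such representatives, `x` and `-x` -/
def IsPoint {n : ℕ} (x : Fin (n + 1) → ℤ) : Prop := ∀ p : ℕ, p.Prime → ∃ j, ¬ (p : ℤ) ∣ x j

/-- the height `max |x j|` of a rational point -/
def height {n : ℕ} (x : Fin (n + 1) → ℤ) : ℕ := Finset.univ.sup fun j => (x j).natAbs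

/-- the systems which have a common zero in `ℙ^n(ℚ)` of height at least `T` and at most `B` -/
def WithPoint (n : ℕ) {s : ℕ} (d : Fin s → ℕ) (H T B : ℕ) :
    Set (Fin s → MvPolynomial (Fin (n + 1)) ℤ) :=
  {F | F ∈ Systems n d H ∧ ∃ x : Fin (n + 1) → ℤ, IsPoint x ∧ T ≤ height x ∧ height x ≤ B ∧
    ∀ i, eval x (F i) = 0}

/-- the probability that a random system with coefficients in `[-H, H]` has a common rational zero of
height between `T` and `B` -/
noncomputable def probability (n : ℕ) {s : ℕ} (d : Fin s → ℕ) (H T B : ℕ) : ℝ :=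
  ((WithPoint n d H T B).ncard : ℝ) / ((Systems n d H).ncard : ℝ)

/-- **Rational points of random complete intersections of general type.** Let `n ≥ 1`, `d_i ≥ 1` and
`∑ d_i ≥ n + 2`. There are constants `c, C > 0` such that for all `H ≥ 1` there are finitely many
systems, at least one, and
(1) for all `B ≥ 1` the probability of a rational point of height at most `B` is at least `c H ^ (-s)`;
(2) for all `T ≥ 1` and `B` the probability of a rational point of height between `T` and `B` is at most
`C H ^ (-s) (T ^ (-κ) + B ^ (n + 1) / H ^ (∑ d_i))`, `κ = ∑ d_i - n - 1`;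
(3) for all `T ≥ 1` with `C T ^ (n + 1 + ∑ d_i) ≤ H ^ s` and all `B ≥ 2 T` this probability is at least
`c H ^ (-s) T ^ (-κ)`. -/
theorem result (n s : ℕ) (hn : 1 ≤ n) (d : Fin s → ℕ) (hd1 : ∀ i, 1 ≤ d i)
    (hd : n + 2 ≤ ∑ i, d i) :
    ∃ c C : ℝ, 0 < c ∧ 0 < C ∧ ∀ H : ℕ, 1 ≤ H →
      (Systems n d H).Finite ∧ (Systems n d H).Nonempty ∧
      (∀ B : ℕ, 1 ≤ B → c / (H : ℝ) ^ s ≤ probability n d H 1 B) ∧
      (∀ T B : ℕ, 1 ≤ T → probability n d H T B ≤
        C / (H : ℝ) ^ s * (1 / (T : ℝ) ^ (∑ i, d i - (n + 1)) +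
          (B : ℝ) ^ (n + 1) / (H : ℝ) ^ (∑ i, d i))) ∧
      (∀ T B : ℕ, 1 ≤ T → 2 * T ≤ B → C * (T : ℝ) ^ (n + 1 + ∑ i, d i) ≤ (H : ℝ) ^ s →
        c / (H : ℝ) ^ s * (1 / (T : ℝ) ^ (∑ i, d i - (n + 1))) ≤ probability n d H T B) :=
  Pool.Agent.U580.RG.main_tail n s hn d hd1 hd

end Pool.Agent.Results.MP_2ae8fe_ag.RandomGeneralType
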