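import Mathlib
import Pool.Agent.N626.Ib

set_option autoImplicit false

/-!
# Rational points given by P-recursive sequences: one closed subset and one bound

Let `X` be an integral closed subvariety of projective `n`-space over a number field `k` (for example
`k = ℚ`), given by the forms `F ∈ FF` of degree at most `d` (the ideal generated by `FF` is prime).
We consider the sequences of points of `X(L)`, for arbitrary extension fields `L` of `k`, with
homogeneous coordinates `x_j(m)` (not all zero, for the `m` for which this gives a point) such that
each `x_j` satisfies a nontrivial linear recurrence `∑_{i ≤ r} p_i(m) x_j(m + i) = 0`, of order at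
most `r`, where the `p_i` are polynomials over `L` of degree at most `e` (`RecVec r e x`), as `m!`,
binomial sums, the Apéry numbers and linear recurrence sequences.

**Theorem.** There is a number `B n d r e` (depending on nothing else) such that the following are
equivalent:

* `X` is not uniruled (for instance, `X` is of general type and of positive dimension);
* for all `r, e` there is ONE proper closed subset `Z = X ∩ {G = 0}` of `X`, defined over `k`, such
  that for all extension fields `L` of `k` every such sequence of points of `X(L)` has at most
  `B n d r e` different points outside of `Z`;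
* for each `e` there is one proper closed subset `Z` of `X` such that for all number fields `L ⊇ k`
  every sequence of points of `X(L)` whose coordinates are the values at `m = 0, 1, 2, …` of
  polynomials over `L` of degree at most `e` has only finitely many points outside of `Z`.

So the conclusion of Lang's conjecture holds for the rational points in P-recursive sequences of
bounded order and degree if `X` is of general type, with one `Z` for all number fields and a bound
for the number of the points outside of `Z` which depends only on `n, d, r, e`; the converse holds as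
well, even for polynomial sequences.

Method (project N626 of the library). All but `B` points of such a sequence are on rational curves
in `X` of degree at most `B`, by the Galois theory of difference equations in a uniform form; on a
variety which is not uniruled the rational curves of bounded degree lie in one proper closed subset.
-/

namespace Pool.Agent.Results.MP_2ae8fe_ag.StrongLangPRecursive

open MvPolynomial Pool.Agent.N626 Pool.Agent.Y377.ST
open Pool.Agent.H533R3.SL (Uniruled)

/-- **Strong Lang for P-recursive sequences, with a bound independent of the variety.** -/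
theorem result : ∃ B : ℕ → ℕ → ℕ → ℕ → ℕ,
    ∀ (k : Type) [Field k] [NumberField k] (n d : ℕ) (FF : Finset (MvPolynomial (Fin (n + 1)) k)),
      (∀ F ∈ FF, ∃ c, c ≤ d ∧ F.IsHomogeneous c) →
      (Ideal.span (FF : Set (MvPolynomial (Fin (n + 1)) k))).IsPrime →
      List.TFAE [
        ¬ Uniruled (Ideal.span (FF : Set (MvPolynomial (Fin (n + 1)) k))),
        ∀ r e : ℕ, ∃ G : MvPolynomial (Fin (n + 1)) k, (∃ c, G.IsHomogeneous c) ∧
          G ∉ Ideal.span (FF : Set (MvPolynomial (Fin (n + 1)) k)) ∧
          ∀ (L : Type) [Field L] [Algebra k L] (x : ℕ → Fin (n + 1) → L),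
            RecVec r e x → (∀ m, ∀ F ∈ FF, aeval (x m) F = 0) →
            (ptsOff G x).encard ≤ B n d r e,
        ∀ e : ℕ, ∃ G : MvPolynomial (Fin (n + 1)) k, (∃ c, G.IsHomogeneous c) ∧
          G ∉ Ideal.span (FF : Set (MvPolynomial (Fin (n + 1)) k)) ∧
          ∀ (L : Type) [Field L] [NumberField L] [Algebra k L] (q : Fin (n + 1) → Polynomial L),
            (∀ j, (q j).natDegree ≤ e) →
            (∀ m : ℕ, ∀ F ∈ FF, aeval (fun j => (q j).eval (m : L)) F = 0) →
            (ptsOff G fun (m : ℕ) j => (q j).eval (m : L)).Finite] := by
  have key : ∀ {k L : Type} [Field k] [Field L] [Algebra k L] {n : ℕ}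
      (G : MvPolynomial (Fin (n + 1)) k) (x : ℕ → Fin (n + 1) → L),
      Pool.Agent.R393.UO.offPts (fun _ : Unit => G) x = ptsOff G x := by
    intro k L _ _ _ n G x
    ext P
    constructor
    · rintro ⟨m, h0, ⟨u, h1⟩, h2⟩
      exact ⟨m, h0, h1, h2⟩
    · rintro ⟨m, h0, h1, h2⟩
      exact ⟨m, h0, ⟨(), h1⟩, h2⟩
  refine ⟨BB, fun k _ _ n d FF hFF hprime => ?_⟩
  tfae_have 1 → 2 := by
    intro hnu r e
    obtain ⟨G, hG1, hG2, hG3⟩ := strong_lang FF hFF hprime hnu r e
    refine ⟨G, hG1, hG2, fun L _ _ x hx hX => ?_⟩
    rw [← key]
    exact hG3 L x hx hX
  tfae_have 2 → 3 := by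
    intro h e
    obtain ⟨G, hG1, hG2, hG3⟩ := h 1 e
    refine ⟨G, hG1, hG2, fun L _ _ _ q hq hX => ?_⟩
    exact Set.finite_of_encard_le_coe (hG3 L _ (recVec_poly q hq) hX)
  tfae_have 3 → 1 := by
    intro h hu
    obtain ⟨e, he⟩ := strong_converse FF hu
    obtain ⟨G, hG1, hG2, hG3⟩ := h e
    obtain ⟨L, i1, i2, i3, q, h1, h2, h3⟩ := he G hG1 hG2
    rw [key] at h3
    exact h3 (hG3 L q h1 h2)
  tfae_finish

end Pool.Agent.Results.MP_2ae8fe_ag.StrongLangPRecursive
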