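import Mathlib
import Pool.Agent.U922.UC.Defs
import Pool.Agent.N741.HB.Thm2

/-!
# Unramified integral points on finite covers of affine space of any degrees

For all `n`, `q` and `ε > 0` there are `K` and `δ > 0` such that for all `Y ≥ 1`:

* (1) Let `P 1 (x, z) = 0, …, P q (x, z) = 0` be finite covers of affine `n`-space, of degrees at most
  `Y ^ δ`, with integer coefficients of absolute value at most `exp (Y ^ δ)`.  The integral points
  `x ∈ [1, Y] ^ n` over which every cover has an unramified integral point `z k`,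
  `|z k| ≤ exp (Y ^ δ)`, lie on at most `Y ^ ε` irreducible subvarieties `V` of affine space (given
  by data of degree at most `K` and height at most `(Y + 2) ^ K`, see `Sub`, `Sub.Bounded`,
  `Sub.Has`), over which every cover has a component of degree at most `K`.
* (2) Cyclic covers `A k (x) z ^ m k = F k (x)`: the points `x ∈ [1, Y] ^ n` over which every one has
  an integral point `z k ≠ 0`, `A k (x) ≠ 0`, lie on at most `Y ^ ε` irreducible subvarieties `V`,
  on which for each `k` a power `(F k / A k) ^ e`, `1 ≤ e ≤ K`, is an `m k`-th power of a rational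
  function (`V` of degree at most `K` and height at most `Y ^ K`).

The case `q = 1`, degrees going to infinity, says that the integral points of varieties whose degree
over affine space is large (and may grow like a power of `Y`) come from few subvarieties of bounded
degree, where the variety has sections or multisections of bounded degree.

The theorem (1) is `Pool.Agent.N741.HB.gdm` of the library (helpers 20, 26, 147, 340, 368, 459, 572,
692, 741, 966 and others); (2) is new.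
-/

set_option autoImplicit false

open MvPolynomial

namespace Pool.Agent.Results.MP_2ae8fe_ag.UnramifiedPointsOnCovers

open Pool.Agent.U922.UC

variable {n : ℕ}

/-- the subvariety of a chart of the library -/
def toSub (V : Pool.Agent.N741.HB.Chart n) : Sub n := ⟨V.d, V.ι, V.h, V.b0, V.b⟩

theorem bounded_of {V : Pool.Agent.N741.HB.Chart n} {K Y : ℕ} (h : V.Cx K Y) :
    (toSub V).Bounded K Y where
  dim := h.d
  ne := h.irr.ne
  one := h.irr.one
  mul := h.irr.mul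
  b0 := h.b0
  deg_h := h.hd
  deg_b0 := h.b0d
  deg_b := h.bd
  coeff_h := h.hc
  coeff_b0 := h.b0c
  coeff_b := h.bc

/-- first part -/
theorem part1 (n q : ℕ) (ε : ℝ) (hε : 0 < ε) : ∃ (K : ℕ) (δ : ℝ), 0 < δ ∧ ∀ Y : ℕ, 1 ≤ Y →
    ∀ P : Fin q → Polynomial (MvPolynomial (Fin n) ℤ), (∀ k, Small Y δ (P k)) →
      ∃ (r : ℕ) (V : Fin r → Sub n), (r : ℝ) ≤ (Y : ℝ) ^ ε ∧
        (∀ i, (V i).Bounded K Y ∧ ∀ k, (V i).Factor (P k) K) ∧
        ∀ x, Lifts Y δ P x → ∃ i, (V i).Has x := by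
  obtain ⟨K, δ, hδ, h⟩ := Pool.Agent.N741.HB.gdm n q ε hε
  refine ⟨K, δ, hδ, fun Y hY P hP => ?_⟩
  obtain ⟨r, V, h1, h2, h3⟩ := h Y hY P hP
  refine ⟨r, fun i => toSub (V i), h1, fun i => ⟨bounded_of (h2 i).1, fun k => (h2 i).2 k⟩, ?_⟩
  rintro x ⟨hx, hz⟩
  choose z hz1 hz2 hz3 using hz
  exact h3 x z hx fun k => ⟨hz1 k, hz2 k, hz3 k⟩

/-- On `V` the function `A` is not zero and a power `(F / A) ^ e`, `1 ≤ e ≤ K`, is an `m`-th power
of a rational function (an element of any field `L` that contains the function field). -/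
def PowerOn (V : Sub n) (A F : MvPolynomial (Fin n) ℤ) (m K : ℕ) : Prop :=
  ∀ (L : Type) [Field L] (φ : MvPolynomial (Option (Fin V.d)) ℤ →+* L), V.Fun φ →
    V.val φ A ≠ 0 ∧ ∃ (e : ℕ) (g : L), 1 ≤ e ∧ e ≤ K ∧ (V.val φ F / V.val φ A) ^ e = g ^ m

/-- degree at most `Y ^ δ` and coefficients of absolute value at most `exp (Y ^ δ)` -/
def Small₀ (Y : ℕ) (δ : ℝ) (F : MvPolynomial (Fin n) ℤ) : Prop :=
  (F.totalDegree : ℝ) ≤ (Y : ℝ) ^ δ ∧ ∀ m, ((|F.coeff m| : ℤ) : ℝ) ≤ Real.exp ((Y : ℝ) ^ δ)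

/-- the points of the box over which every cover `A k (x) z ^ m k = F k (x)` has an integral point
`z k ≠ 0` of size at most `exp (Y ^ δ)`, where `A k (x) ≠ 0` -/
def Powers {q : ℕ} (Y : ℕ) (δ : ℝ) (m : Fin q → ℕ) (A F : Fin q → MvPolynomial (Fin n) ℤ)
    (x : Fin n → ℤ) : Prop :=
  (∀ j, 1 ≤ x j ∧ x j ≤ (Y : ℤ)) ∧ ∀ k, eval x (A k) ≠ 0 ∧ ∃ z : ℤ, z ≠ 0 ∧
    ((|z| : ℤ) : ℝ) ≤ Real.exp ((Y : ℝ) ^ δ) ∧ eval x (A k) * z ^ m k = eval x (F k)

/-- the polynomial of the cyclic cover -/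
noncomputable def cyc (m : ℕ) (A F : MvPolynomial (Fin n) ℤ) :
    Polynomial (MvPolynomial (Fin n) ℤ) := Polynomial.C A * Polynomial.X ^ m - Polynomial.C F

theorem small_cyc {Y m : ℕ} {δ : ℝ} {A F : MvPolynomial (Fin n) ℤ} (hm : 1 ≤ m)
    (hmY : (m : ℝ) ≤ (Y : ℝ) ^ δ) (hA : Small₀ Y δ A) (hF : Small₀ Y δ F) :
    Small Y δ (cyc m A F) := by
  have hdeg : (cyc m A F).natDegree ≤ m := by
    unfold cyc
    refine (Polynomial.natDegree_sub_le _ _).trans (max_le ?_ (by simp))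
    exact Polynomial.natDegree_C_mul_X_pow_le _ _
  have h0 : ∀ l, (cyc m A F).coeff l = if l = m then A else if l = 0 then -F else 0 := by
    intro l
    unfold cyc
    rw [Polynomial.coeff_sub, Polynomial.coeff_C_mul_X_pow, Polynomial.coeff_C]
    by_cases h1 : l = m
    · have h2 : l ≠ 0 := by omega
      simp [h1, show m ≠ 0 by omega]
    · by_cases h2 : l = 0
      · simp [h2, show (0 : ℕ) ≠ m by omega]
      · simp [h1, h2]
  have hY0 : (0 : ℝ) ≤ (Y : ℝ) ^ δ := Real.rpow_nonneg (Nat.cast_nonneg _) _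
  refine ⟨le_trans (by exact_mod_cast hdeg) hmY, fun l => ?_⟩
  rw [h0 l]
  split_ifs
  · exact hA
  · refine ⟨by rw [totalDegree_neg]; exact hF.1, fun m => ?_⟩
    rw [MvPolynomial.coeff_neg, abs_neg]
    exact hF.2 m
  · refine ⟨by simpa using hY0, fun m => ?_⟩
    simp [Real.exp_nonneg]

theorem lifts_cyc {q Y : ℕ} {δ : ℝ} {m : Fin q → ℕ} {A F : Fin q → MvPolynomial (Fin n) ℤ}
    (hm : ∀ k, 1 ≤ m k) {x : Fin n → ℤ} (hx : Powers Y δ m A F x) :
    Lifts Y δ (fun k => cyc (m k) (A k) (F k)) x := by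
  refine ⟨hx.1, fun k => ?_⟩
  obtain ⟨hA, z, hz0, hz1, hz2⟩ := hx.2 k
  refine ⟨z, hz1, ?_, ?_⟩
  · simp only [cyc, Polynomial.map_sub, Polynomial.map_mul, Polynomial.map_C, Polynomial.map_pow,
      Polynomial.map_X, Polynomial.eval_sub, Polynomial.eval_mul, Polynomial.eval_C,
      Polynomial.eval_pow, Polynomial.eval_X]
    rw [hz2, sub_self]
  · have h1 : (Polynomial.derivative (cyc (m k) (A k) (F k))) =
        Polynomial.C (A k) * (Polynomial.C ((m k : ℕ) : MvPolynomial (Fin n) ℤ) *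
          Polynomial.X ^ (m k - 1)) := by
      simp [cyc, Polynomial.derivative_X_pow]
    rw [h1]
    simp only [Polynomial.map_mul, Polynomial.map_C, Polynomial.map_pow, Polynomial.map_X,
      Polynomial.eval_mul, Polynomial.eval_C, Polynomial.eval_pow, Polynomial.eval_X, map_natCast]
    have h2 : ((m k : ℕ) : ℤ) ≠ 0 := by
      have := hm k
      positivity
    refine mul_ne_zero hA (mul_ne_zero ?_ (pow_ne_zero _ hz0))
    rw [Polynomial.map_natCast, Polynomial.eval_natCast]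
    exact h2

theorem power_of_factor {V : Sub n} {A F : MvPolynomial (Fin n) ℤ} {m K : ℕ} (hm : 1 ≤ m)
    (h : V.Factor (cyc m A F) K) : PowerOn V A F m K := by
  intro L _ φ hφ
  obtain ⟨h1, M, h2, h3, h4⟩ := h L φ hφ
  have hmap : (cyc m A F).map (V.val φ) =
      Polynomial.C (V.val φ A) * Polynomial.X ^ m - Polynomial.C (V.val φ F) := by
    simp only [cyc, Polynomial.map_sub, Polynomial.map_mul, Polynomial.map_C, Polynomial.map_pow,
      Polynomial.map_X]
  rw [hmap] at h1 h4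
  have hA : V.val φ A ≠ 0 := by
    intro hA
    rw [hA, Polynomial.C_0, zero_mul, zero_sub] at h1 h4
    have h5 : V.val φ F ≠ 0 := by
      intro h
      rw [h, Polynomial.C_0, neg_zero] at h1
      exact h1 rfl
    have h6 := Polynomial.natDegree_le_of_dvd h4 h1
    rw [Polynomial.natDegree_neg, Polynomial.natDegree_C] at h6
    omega
  refine ⟨hA, M.natDegree, ?_⟩
  have h7 : M ∣ Polynomial.X ^ m - Polynomial.C (V.val φ F / V.val φ A) := by
    have h8 : (Polynomial.X ^ m - Polynomial.C (V.val φ F / V.val φ A) : Polynomial L) =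
        (Polynomial.C (V.val φ A) * Polynomial.X ^ m - Polynomial.C (V.val φ F)) *
          Polynomial.C (V.val φ A)⁻¹ := by
      rw [div_eq_mul_inv, Polynomial.C_mul]
      have h9 : (Polynomial.C (V.val φ A) * Polynomial.C (V.val φ A)⁻¹ : Polynomial L) = 1 := by
        rw [← Polynomial.C_mul, mul_inv_cancel₀ hA, Polynomial.C_1]
      linear_combination (-(Polynomial.X ^ m : Polynomial L)) * h9
    rw [h8]
    exact Dvd.dvd.mul_right h4 _
  obtain ⟨g, hg⟩ := pow_of_factor hm h7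
  exact ⟨g, h2, h3, hg⟩

theorem result (n q : ℕ) (ε : ℝ) (hε : 0 < ε) : ∃ (K : ℕ) (δ : ℝ), 0 < δ ∧ ∀ Y : ℕ, 1 ≤ Y →
    (∀ P : Fin q → Polynomial (MvPolynomial (Fin n) ℤ), (∀ k, Small Y δ (P k)) →
      ∃ (r : ℕ) (V : Fin r → Sub n), (r : ℝ) ≤ (Y : ℝ) ^ ε ∧
        (∀ i, (V i).Bounded K Y ∧ ∀ k, (V i).Factor (P k) K) ∧
        ∀ x, Lifts Y δ P x → ∃ i, (V i).Has x) ∧
    (∀ (m : Fin q → ℕ) (A F : Fin q → MvPolynomial (Fin n) ℤ),
      (∀ k, 1 ≤ m k ∧ (m k : ℝ) ≤ (Y : ℝ) ^ δ ∧ Small₀ Y δ (A k) ∧ Small₀ Y δ (F k)) →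
      ∃ (r : ℕ) (V : Fin r → Sub n), (r : ℝ) ≤ (Y : ℝ) ^ ε ∧
        (∀ i, (V i).Bounded K Y ∧ ∀ k, PowerOn (V i) (A k) (F k) (m k) K) ∧
        ∀ x, Powers Y δ m A F x → ∃ i, (V i).Has x) := by
  obtain ⟨K, δ, hδ, h⟩ := part1 n q ε hε
  refine ⟨K, δ, hδ, fun Y hY => ⟨fun P hP => h Y hY P hP, fun m A F hmAF => ?_⟩⟩
  obtain ⟨r, V, h1, h2, h3⟩ := h Y hY (fun k => cyc (m k) (A k) (F k)) fun k =>
    small_cyc (hmAF k).1 (hmAF k).2.1 (hmAF k).2.2.1 (hmAF k).2.2.2
  exact ⟨r, V, h1, fun i => ⟨(h2 i).1, fun k => power_of_factor (hmAF k).1 ((h2 i).2 k)⟩,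
    fun x hx => h3 x (lifts_cyc (fun k => (hmAF k).1) hx)⟩

end Pool.Agent.Results.MP_2ae8fe_ag.UnramifiedPointsOnCovers
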